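import Mathlib

set_option autoImplicit false

/-!
Interface file for the proof of the p-adic Subspace Theorem (rational points, real algebraic
forms at infinity, coordinate forms at the finite places) and its application.
-/

namespace Pool.Agent.MP_077ac3_nt.H18

open MvPolynomial Filter

/-- Sum of the absolute values of the coefficients. -/
noncomputable def l1 {σ : Type} (P : MvPolynomial σ ℤ) : ℝ :=
  ∑ J ∈ P.support, |((P.coeff J : ℤ) : ℝ)|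

/-- Taylor shift `P(X) ↦ P(y + X)`. -/
noncomputable def shift {σ R : Type} [CommRing R] (y : σ → R) :
    MvPolynomial σ R →ₐ[R] MvPolynomial σ R :=
  aeval (fun s => C (y s) + X s)

/-- Weight of a monomial. -/
noncomputable def wt {σ : Type} (w : σ → ℝ) (J : σ →₀ ℕ) : ℝ :=
  J.sum fun s k => (k : ℝ) * w s

/-- Multihomogeneous of multidegree `d`. -/
def Hom {m : ℕ} {ι R : Type} [Fintype ι] [CommRing R] (d : Fin m → ℕ)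
    (P : MvPolynomial (Fin m × ι) R) : Prop :=
  ∀ J ∈ P.support, ∀ h, ∑ i, J (h, i) = d h

/-- All monomials are balanced. -/
def Bal {m : ℕ} {ι R : Type} [Fintype ι] [CommRing R] (d : Fin m → ℕ) (ε : ℝ)
    (P : MvPolynomial (Fin m × ι) R) : Prop :=
  ∀ J ∈ P.support, ∀ i, (m : ℝ) * (1 / (Fintype.card ι : ℝ) - ε) ≤ ∑ h, (J (h, i) : ℝ) / d h

/-- The linear change of variables `X_h ↦ M X_h` in every block. -/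
noncomputable def linSub {m : ℕ} {ι : Type} [Fintype ι] (M : Matrix ι ι ℝ) :
    MvPolynomial (Fin m × ι) ℤ →ₐ[ℤ] MvPolynomial (Fin m × ι) ℝ :=
  aeval (fun s => ∑ j, C (M s.2 j) * X (s.1, j))

/-- The modulus attached to the coordinate `i` at parameter `q`. -/
noncomputable def dv {ι S : Type} [Fintype S] (g : S → ℕ) (e : ι → S → ℝ) (q : ℝ) (i : ι) : ℤ :=
  ∏ s, (g s : ℤ) ^ ⌈e i s * q⌉₊

/-- Roth's lemma (qualitative form). -/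
def RothStmt : Prop :=
  ∀ (m : ℕ) (θ : ℝ), 0 < θ → ∃ σ : ℝ, 0 < σ ∧
    ∀ (d : Fin m → ℕ) (P : MvPolynomial (Fin m) ℤ) (ξ : Fin m → ℚ),
      (∀ h, 0 < d h) → (∀ h h', h < h' → (d h : ℝ) ≤ σ * d h') → P ≠ 0 →
      (∀ h, P.degreeOf h ≤ d h) →
      (∀ h, Real.log (l1 P) + ∑ h', (d h' : ℝ) ≤ σ * d h * Real.log ((ξ h).den : ℝ)) →
      ∃ J : Fin m →₀ ℕ, wt (fun h => 1 / (d h : ℝ)) J ≤ θ ∧
        coeff J (shift ξ (map (Int.castRingHom ℚ) P)) ≠ 0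

/-- Roth's lemma for hyperplanes together with the grid lemma. -/
def GRothStmt : Prop :=
  ∀ (ι κ : Type) [Fintype ι] [DecidableEq ι] [Fintype κ] (m : ℕ) (θ : ℝ), 0 < θ →
    ∃ σ : ℝ, 0 < σ ∧ ∃ B : ℕ, ∀ (d : Fin m → ℕ) (P : MvPolynomial (Fin m × ι) ℤ)
      (x : Fin m → κ → ι → ℤ) (w : Fin m → ι → ℤ),
      (∀ h, 0 < d h) → (∀ h h', h < h' → (d h : ℝ) ≤ σ * d h') → P ≠ 0 → Hom d P →
      (∀ h, Finset.univ.gcd (w h) = 1) →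
      (∀ h (u : ι → ℚ), ∑ i, (w h i : ℚ) * u i = 0 →
        ∃ t : κ → ℚ, ∀ i, u i = ∑ l, t l * (x h l i : ℚ)) →
      (∀ h, ∃ i, Real.log (l1 P) + ∑ h', (d h' : ℝ) ≤ σ * d h * Real.log |(w h i : ℝ)|) →
      ∃ z : Fin m → κ → ℕ, (∀ h l, z h l ≤ B) ∧ ∃ J : Fin m × ι →₀ ℕ,
        wt (fun s => 1 / (d s.1 : ℝ)) J ≤ θ ∧
        coeff J (shift (fun s : Fin m × ι => ∑ l, (z s.1 l : ℤ) * x s.1 l s.2) P) ≠ 0

/-- The auxiliary polynomial. -/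
def AuxStmt : Prop :=
  ∀ (ι : Type) [Fintype ι] [DecidableEq ι] [Nonempty ι] (M : Matrix ι ι ℝ),
    (∀ i j, IsAlgebraic ℚ (M i j)) → ∀ ε : ℝ, 0 < ε →
    ∃ m : ℕ, 0 < m ∧ ∃ K : ℝ, 1 ≤ K ∧ ∀ d : Fin m → ℕ, (∀ h, 0 < d h) →
      ∃ P : MvPolynomial (Fin m × ι) ℤ, P ≠ 0 ∧ Hom d P ∧ l1 P ≤ K ^ (∑ h, d h) ∧
        Bal d ε P ∧ Bal d ε (linSub M P)

/-- Vanishing of the low order Taylor coefficients of the auxiliary polynomial. -/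
def VanishStmt : Prop :=
  ∀ (ι S : Type) [Fintype ι] [DecidableEq ι] [Nonempty ι] [Fintype S] (M : Matrix ι ι ℝ)
    (g : S → ℕ) (c : ι → ℝ) (e : ι → S → ℝ), M.det ≠ 0 → (∀ s, 0 < g s) → (∀ i s, 0 ≤ e i s) →
    ∑ i, c i < ∑ i, ∑ s, e i s * Real.log (g s) →
    ∃ ε : ℝ, 0 < ε ∧ ∀ (m : ℕ) (K B : ℝ), 0 < m → 1 ≤ K → 1 ≤ B →
      ∃ q0 : ℝ, ∀ q : Fin m → ℝ, (∀ h, q0 ≤ q h) → ∃ D0 : ℝ, ∀ D : ℝ, D0 ≤ D →
        ∀ d : Fin m → ℕ, (∀ h, D ≤ d h * q h ∧ d h * q h ≤ D + q h) →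
        ∀ P : MvPolynomial (Fin m × ι) ℤ, Hom d P → l1 P ≤ K ^ (∑ h, d h) →
          Bal d ε P → Bal d ε (linSub M⁻¹ P) →
        ∀ y : Fin m × ι → ℤ, (∀ h i, |∑ j, M i j * (y (h, j) : ℝ)| ≤ B * Real.exp (c i * q h)) →
          (∀ h i, dv g e (q h) i ∣ y (h, i)) →
        ∀ J : Fin m × ι →₀ ℕ, wt (fun s => 1 / (d s.1 : ℝ)) J ≤ m * ε →
          coeff J (shift y P) = 0

/-- Either the hyperplane lies in a finite set or its height is large. -/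
def HeightStmt : Prop :=
  ∀ (ι S : Type) [Fintype ι] [DecidableEq ι] [Fintype S] (M : Matrix ι ι ℝ)
    (g : S → ℕ) (c : ι → ℝ) (e : ι → S → ℝ), (∀ i j, IsAlgebraic ℚ (M i j)) → M.det ≠ 0 →
    (∀ s, 0 < g s) → (∀ s s', s ≠ s' → Nat.Coprime (g s) (g s')) → (∀ i s, 0 ≤ e i s) →
    ∑ i, c i < ∑ i, ∑ s, e i s * Real.log (g s) →
    ∃ η : ℝ, 0 < η ∧ ∃ W : Finset (ι → ℤ), 0 ∉ W ∧ ∃ q0 : ℝ, ∀ q : ℝ, q0 ≤ q →
      ∀ (X : Matrix ι ι ℤ) (i0 : ι), X.det ≠ 0 →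
        (∀ i l, l ≠ i0 → |∑ j, M i j * (X j l : ℝ)| ≤ Real.exp (c i * q)) →
        (∀ i l, l ≠ i0 → dv g e q i ∣ X i l) →
        (∃ w ∈ W, ∀ l, l ≠ i0 → ∑ i, w i * X i l = 0) ∨
        (∃ w : ι → ℤ, (∀ l, l ≠ i0 → ∑ i, w i * X i l = 0) ∧ Finset.univ.gcd w = 1 ∧
          ∃ i, Real.exp (η * q) ≤ |(w i : ℝ)|)

/-- The hyperplanes spanned by the points of a small parallelepiped lie in a finite set. -/
def CoreStmt : Prop :=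
  ∀ (ι S : Type) [Fintype ι] [DecidableEq ι] [Fintype S] (M : Matrix ι ι ℝ)
    (g : S → ℕ) (c : ι → ℝ) (e : ι → S → ℝ), (∀ i j, IsAlgebraic ℚ (M i j)) → M.det ≠ 0 →
    (∀ s, 0 < g s) → (∀ s s', s ≠ s' → Nat.Coprime (g s) (g s')) → (∀ i s, 0 ≤ e i s) →
    ∑ i, c i < ∑ i, ∑ s, e i s * Real.log (g s) →
    ∃ W : Finset (ι → ℤ), 0 ∉ W ∧ ∃ q0 : ℝ, ∀ q : ℝ, q0 ≤ q →
      ∀ (X : Matrix ι ι ℤ) (i0 : ι), X.det ≠ 0 →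
        (∀ i l, l ≠ i0 → |∑ j, M i j * (X j l : ℝ)| ≤ Real.exp (c i * q)) →
        (∀ i l, l ≠ i0 → dv g e q i ∣ X i l) →
        ∃ w ∈ W, ∀ l, l ≠ i0 → ∑ i, w i * X i l = 0

/-- Successive minima, Evertse's lemma and Minkowski's second theorem in one statement. -/
def GeomStmt : Prop :=
  ∀ n : ℕ, ∃ K : ℝ, 1 ≤ K ∧ ∀ A : Matrix (Fin n) (Fin n) ℝ, A.det ≠ 0 →
    ∃ (V : Matrix (Fin n) (Fin n) ℤ) (π : Equiv.Perm (Fin n)) (μ : Fin n → ℝ),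
      V.det ≠ 0 ∧ (∀ i, 0 < μ i) ∧ Monotone μ ∧
      (∀ i j, |∑ k, A (π i) k * (V k j : ℝ)| ≤ K * min (μ i) (μ j)) ∧
      ∏ i, μ i ≤ K * |A.det| ∧
      ∀ (x : Fin n → ℤ) (k : Fin n), (∀ i, |∑ j, A i j * (x j : ℝ)| < μ k) →
        ∃ t : Fin n → ℚ, (∀ j, k ≤ j → t j = 0) ∧ ∀ i, (x i : ℚ) = ∑ j, (V i j : ℚ) * t j

/-- The parametric p-adic Subspace Theorem. -/
def SubspaceStmt : Prop :=
  ∀ (n : ℕ) (S : Type) [Fintype S] (L : Matrix (Fin n) (Fin n) ℝ)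
    (g : S → ℕ) (c : Fin n → ℝ) (e : Fin n → S → ℝ), (∀ i j, IsAlgebraic ℚ (L i j)) → L.det ≠ 0 →
    (∀ s, 0 < g s) → (∀ s s', s ≠ s' → Nat.Coprime (g s) (g s')) → (∀ i s, 0 ≤ e i s) →
    ∑ i, c i < ∑ i, ∑ s, e i s * Real.log (g s) →
    ∀ U : Ultrafilter ℝ, (U : Filter ℝ) ≤ atTop →
      ∃ w : Fin n → ℤ, w ≠ 0 ∧ ∀ᶠ q in (U : Filter ℝ), ∀ x : Fin n → ℤ,
        (∀ i, |∑ j, L i j * (x j : ℝ)| ≤ Real.exp (c i * q)) → (∀ i, dv g e q i ∣ x i) →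
        ∑ i, w i * x i = 0

/-- The Subspace Theorem in product form along a sequence. -/
def SeqStmt : Prop :=
  ∀ (n b K : ℕ) (L : Matrix (Fin n) (Fin n) ℝ) (ε : ℝ), 2 ≤ b →
    (∀ i j, IsAlgebraic ℚ (L i j)) → L.det ≠ 0 → 0 < ε →
    ∀ U : Ultrafilter ℕ, (U : Filter ℕ) ≤ atTop →
    ∀ (x : ℕ → Fin n → ℤ) (ℓ : ℕ → Fin n → ℝ) (d : ℕ → Fin n → ℕ),
      (∀ᶠ m in (U : Filter ℕ),
        (∀ i, |∑ j, L i j * (x m j : ℝ)| ≤ ℓ m i ∧ 0 < ℓ m i ∧ |Real.log (ℓ m i)| ≤ K * m ∧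
          (d m i : ℤ) ∣ x m i ∧ d m i ∣ b ^ (K * m)) ∧
        (∏ i, ℓ m i) * Real.exp (ε * m) ≤ ∏ i, (d m i : ℝ)) →
      ∃ w : Fin n → ℤ, w ≠ 0 ∧ ∀ᶠ m in (U : Filter ℕ), ∑ i, w i * x m i = 0

/-- The final statement (the case `L = 0`, `k = k0` is the question of the problem file). -/
def FinalStmt : Prop :=
  ∀ b : ℕ, 2 ≤ b → ∀ α β : ℝ, Irrational α → Irrational β → IsAlgebraic ℚ α → IsAlgebraic ℚ β →
    ∀ ε : ℝ, 0 < ε → ∀ k0 L : ℕ, ∃ M : ℕ, ∀ m : ℕ, M ≤ m → ∀ k : ℕ, k ≤ k0 + L * m →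
      ((Int.gcd (⌊α * (b : ℝ) ^ (k + m)⌋ * ⌊β * (b : ℝ) ^ m⌋ + 1) ((b : ℤ) ^ m) : ℕ) : ℝ) <
        (b : ℝ) ^ (ε * m)

end Pool.Agent.MP_077ac3_nt.H18
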