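import Pool.Agent.MP_077ac3_nt.H18.Kit

set_option autoImplicit false

/-! The hyperplanes of small parallelepipeds lie in a finite set. -/

namespace Pool.Agent.MP_077ac3_nt.H18

open MvPolynomial

theorem det_alg {ι : Type} [Fintype ι] [DecidableEq ι] (M : Matrix ι ι ℝ)
    (hM : ∀ i j, IsAlgebraic ℚ (M i j)) : IsAlgebraic ℚ M.det := by
  rw [← mem_algebraicClosure_iff, Matrix.det_apply']
  refine sum_mem fun p _ => mul_mem (intCast_mem _ _) (prod_mem fun i _ => ?_)
  exact mem_algebraicClosure_iff.2 (hM _ _)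

theorem inv_alg {ι : Type} [Fintype ι] [DecidableEq ι] (M : Matrix ι ι ℝ)
    (hM : ∀ i j, IsAlgebraic ℚ (M i j)) (i j : ι) : IsAlgebraic ℚ (M⁻¹ i j) := by
  rw [Matrix.inv_def, Matrix.smul_apply, smul_eq_mul, Ring.inverse_eq_inv', Matrix.adjugate_apply]
  refine (det_alg M hM).inv.mul (det_alg _ fun a b => ?_)
  rw [Matrix.updateRow_apply]
  split_ifs
  · rw [Pi.single_apply]
    split_ifs
    · exact isAlgebraic_one
    · exact isAlgebraic_zero
  · exact hM a b

theorem span_cols {ι : Type} [Fintype ι] [DecidableEq ι] (X : Matrix ι ι ℤ) (i0 : ι)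
    (hX : X.det ≠ 0) (w : ι → ℤ) (hw : ∀ l, l ≠ i0 → ∑ i, w i * X i l = 0)
    (hg : Finset.univ.gcd w = 1) (u : ι → ℚ) (hu : ∑ i, (w i : ℚ) * u i = 0) :
    ∃ t : ι → ℚ, ∀ i, u i = ∑ l, t l * ((if l = i0 then 0 else X i l : ℤ) : ℚ) := by
  set XQ : Matrix ι ι ℚ := X.map (Int.castRingHom ℚ) with hXQ
  have hdet : XQ.det ≠ 0 := by
    rw [hXQ, ← RingHom.mapMatrix_apply, ← RingHom.map_det]
    simpa using hX
  set t := XQ⁻¹.mulVec u with ht
  have hut : XQ.mulVec t = u := by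
    rw [ht, Matrix.mulVec_mulVec, Matrix.mul_nonsing_inv _ (Ne.isUnit hdet), Matrix.one_mulVec]
  have hui : ∀ i, u i = ∑ l, (X i l : ℚ) * t l := fun i => by
    rw [← hut]; simp [Matrix.mulVec, dotProduct, hXQ]
  have h0 : ∑ i, w i * X i i0 ≠ 0 := by
    intro h0
    have h1 : Matrix.vecMul w X = 0 := by
      funext l
      by_cases hl : l = i0
      · subst hl; simpa [Matrix.vecMul, dotProduct] using h0
      · simpa [Matrix.vecMul, dotProduct] using hw l hl
    have h2 := Matrix.eq_zero_of_vecMul_eq_zero hX h1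
    rw [h2] at hg
    have : Finset.univ.gcd (0 : ι → ℤ) = 0 := Finset.gcd_eq_zero_iff.2 fun _ _ => rfl
    rw [this] at hg
    exact zero_ne_one hg
  have ht0 : t i0 = 0 := by
    have h1 : ∑ i, (w i : ℚ) * u i = ∑ l, ((∑ i, w i * X i l : ℤ) : ℚ) * t l := by
      simp only [hui, Finset.mul_sum]
      rw [Finset.sum_comm]
      refine Finset.sum_congr rfl fun l _ => ?_
      push_cast
      rw [Finset.sum_mul]
      exact Finset.sum_congr rfl fun i _ => by ring
    rw [hu, Finset.sum_eq_single i0] at h1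
    · rcases mul_eq_zero.1 h1.symm with h | h
      · exact absurd (by exact_mod_cast h) h0
      · exact h
    · intro l _ hl; rw [hw l hl]; simp
    · simp
  refine ⟨t, fun i => ?_⟩
  rw [hui]
  refine Finset.sum_congr rfl fun l _ => ?_
  by_cases hl : l = i0
  · simp [hl, ht0]
  · simp [hl, mul_comm]

theorem exists_seq (p : ℝ → Prop) (hp : ∀ q0, ∃ q, q0 ≤ q ∧ p q) (a r : ℝ) (ha : 0 ≤ a)
    (hr : 0 ≤ r) :
    ∃ Q : ℕ → ℝ, (∀ n, a ≤ Q n ∧ p (Q n)) ∧ ∀ n n', n < n' → r * Q n ≤ Q n' := by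
  choose f hf using hp
  let Q : ℕ → ℝ := fun n => Nat.rec (f a) (fun _ x => f (max x (r * x))) n
  have hs : ∀ n, Q (n + 1) = f (max (Q n) (r * Q n)) := fun n => rfl
  have hmono : Monotone Q := monotone_nat_of_le_succ fun n => by
    rw [hs]; exact (le_max_left _ _).trans (hf _).1
  have h0 : a ≤ Q 0 := (hf a).1
  refine ⟨Q, fun n => ⟨h0.trans (hmono (Nat.zero_le n)), ?_⟩, fun n n' h => ?_⟩
  · cases n with
    | zero => exact (hf a).2
    | succ n => rw [hs]; exact (hf _).2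
  · refine le_trans ?_ (hmono (Nat.succ_le_of_lt h))
    rw [hs]; exact (le_max_right _ _).trans (hf _).1

theorem core_of (hG : GRothStmt) (hA : AuxStmt) (hV : VanishStmt) (hH : HeightStmt) :
    CoreStmt := by
  intro ι S _ _ _ M g c e hM hdet hg hcop he hlt
  haveI : Nonempty ι := by
    by_contra hne
    rw [not_nonempty_iff] at hne
    simp at hlt
  obtain ⟨η, hη, W, hW, qH, hH⟩ := hH ι S M g c e hM hdet hg hcop he hlt
  refine ⟨W, hW, ?_⟩
  by_contra hcon
  obtain ⟨ε, hε, hV⟩ := hV ι S M g c e hdet hg he hlt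
  obtain ⟨m, hm, K, hK, hA⟩ := hA ι M⁻¹ (inv_alg M hM) ε hε
  have hm' : (0 : ℝ) < m := by exact_mod_cast hm
  obtain ⟨σ, hσ, B, hG⟩ := hG ι ι m (m * ε) (by positivity)
  obtain ⟨qV, hV⟩ := hV m K (Fintype.card ι * B + 1) hm hK (by
    have : (0 : ℝ) ≤ Fintype.card ι * B := by positivity
    linarith)
  have hbad : ∀ q0, ∃ q, q0 ≤ q ∧ ∃ (X : Matrix ι ι ℤ) (i0 : ι) (w : ι → ℤ), X.det ≠ 0 ∧
      (∀ i l, l ≠ i0 → |∑ j, M i j * (X j l : ℝ)| ≤ Real.exp (c i * q)) ∧
      (∀ i l, l ≠ i0 → dv g e q i ∣ X i l) ∧ (∀ l, l ≠ i0 → ∑ i, w i * X i l = 0) ∧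
      Finset.univ.gcd w = 1 ∧ ∃ i, Real.exp (η * q) ≤ |(w i : ℝ)| := by
    intro q0
    by_contra h1
    refine hcon ⟨max q0 qH, fun q hq X i0 hX h2 h3 => ?_⟩
    rcases hH q ((le_max_right _ _).trans hq) X i0 hX h2 h3 with h4 | ⟨w, h4, h5, h6⟩
    · exact h4
    · exact absurd ⟨q, (le_max_left _ _).trans hq, X, i0, w, hX, h2, h3, h4, h5, h6⟩ h1
  have hlogK : 0 ≤ Real.log K := Real.log_nonneg hK
  set T : ℝ := 2 * (Real.log K + 1) * m / (σ * η) with hT
  have hT0 : 0 < T := by positivity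
  obtain ⟨Q, hQ, hQr⟩ := exists_seq _ hbad (max T qV) (2 / σ) (hT0.le.trans (le_max_left _ _))
    (by positivity)
  set q : Fin m → ℝ := fun h => Q (Fin.rev h) with hq
  have hqT : ∀ h, T ≤ q h := fun h => (le_max_left _ _).trans (hQ _).1
  have hq0 : ∀ h, 0 < q h := fun h => hT0.trans_le (hqT h)
  choose X i0 w hX hX1 hX2 hw hwg hwi using fun h : Fin m => (hQ (Fin.rev h)).2
  obtain ⟨D0, hV⟩ := hV q fun h => (le_max_right _ _).trans (hQ _).1
  set D : ℝ := max D0 (∑ h, q h) with hD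
  have hqD : ∀ h, q h ≤ D := fun h =>
    (Finset.single_le_sum (fun h _ => (hq0 h).le) (Finset.mem_univ h)).trans (le_max_right _ _)
  have hTD : T ≤ D := (hqT ⟨0, hm⟩).trans (hqD _)
  have hD0 : 0 < D := hT0.trans_le hTD
  set d : Fin m → ℕ := fun h => ⌈D / q h⌉₊ with hd
  have hd1 : ∀ h, D / q h ≤ d h := fun h => Nat.le_ceil _
  have hd2 : ∀ h, (d h : ℝ) ≤ D / q h + 1 := fun h =>
    (Nat.ceil_lt_add_one (div_nonneg hD0.le (hq0 h).le)).le
  have hd0 : ∀ h, 0 < d h := fun h => Nat.ceil_pos.2 (div_pos hD0 (hq0 h))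
  have hd3 : ∀ h, D ≤ d h * q h := fun h => (div_le_iff₀ (hq0 h)).1 (hd1 h)
  obtain ⟨P, hP0, hP, hPl, hPb, hPb'⟩ := hA d hd0
  obtain ⟨z, hz, J, hJ, hc⟩ := hG d P (fun h l i => if l = i0 h then 0 else X h i l) w hd0
    (fun h h' hh => by
      have h1 : 2 / σ * q h' ≤ q h := hQr _ _ (Fin.rev_lt_rev.2 hh)
      have h2 : 1 ≤ D / q h := (one_le_div (hq0 h)).2 (hqD h)
      have h3 : 2 * (D / q h) ≤ σ * (D / q h') := by
        have h4 := hq0 h
        have h5 := hq0 h'
        rw [div_mul_eq_mul_div, div_le_iff₀ hσ] at h1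
        rw [← mul_div_assoc, ← mul_div_assoc, div_le_div_iff₀ h4 h5]
        nlinarith
      have h6 := mul_le_mul_of_nonneg_left (hd1 h') hσ.le
      linarith [hd2 h])
    hP0 hP hwg (fun h u hu => span_cols (X h) (i0 h) (hX h) (w h) (hw h) (hwg h) u hu)
    (fun h => by
      obtain ⟨i, hi⟩ := hwi h
      refine ⟨i, ?_⟩
      have h1 : η * q h ≤ Real.log |(w h i : ℝ)| := by
        have := Real.log_le_log (Real.exp_pos _) hi
        rwa [Real.log_exp] at this
      have h2 : Real.log (l1 P) ≤ (∑ h', (d h' : ℝ)) * Real.log K := by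
        have := Real.log_le_log (lt_of_lt_of_le one_pos (one_le_l1 hP0)) hPl
        rw [Real.log_pow] at this
        simpa using this
      have h3 : ∑ h', (d h' : ℝ) ≤ m * (2 * (D / T)) * 1 := by
        have : ∀ h', (d h' : ℝ) ≤ 2 * (D / T) := fun h' => by
          have a1 : D / q h' ≤ D / T := div_le_div_of_nonneg_left hD0.le hT0 (hqT h')
          have a2 : 1 ≤ D / T := (one_le_div hT0).2 hTD
          linarith [hd2 h']
        simpa using Finset.sum_le_sum fun h' (_ : h' ∈ Finset.univ) => this h'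
      have h4 : m * (2 * (D / T)) * (Real.log K + 1) = σ * η * D := by
        rw [hT]; field_simp
      have h5 : σ * η * D ≤ σ * d h * (η * q h) := by
        have := mul_le_mul_of_nonneg_left (hd3 h) (mul_pos hσ hη).le
        linarith
      have h6 : σ * d h * (η * q h) ≤ σ * d h * Real.log |(w h i : ℝ)| :=
        mul_le_mul_of_nonneg_left h1 (by positivity)
      have h7 := mul_le_mul_of_nonneg_right h3 (add_nonneg hlogK zero_le_one)
      linarith)
  refine hc (hV D (le_max_left _ _) d (fun h => ⟨hd3 h, ?_⟩) P hP hPl hPb hPb' _ ?_ ?_ J hJ)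
  · have := mul_le_mul_of_nonneg_right (hd2 h) (hq0 h).le
    rwa [add_mul, div_mul_cancel₀ _ (hq0 h).ne', one_mul] at this
  · intro h i
    have e1 : ∑ j, M i j * ((∑ l, (z h l : ℤ) * (if l = i0 h then 0 else X h j l) : ℤ) : ℝ) =
        ∑ l, (z h l : ℝ) * (if l = i0 h then 0 else ∑ j, M i j * (X h j l : ℝ)) := by
      push_cast
      simp only [Finset.mul_sum]
      rw [Finset.sum_comm]
      refine Finset.sum_congr rfl fun l _ => ?_
      split_ifs
      · simp
      · rw [Finset.mul_sum]; exact Finset.sum_congr rfl fun j _ => by ring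
    rw [e1]
    refine (Finset.abs_sum_le_sum_abs _ _).trans ?_
    have h1 : ∀ l, |(z h l : ℝ) * (if l = i0 h then 0 else ∑ j, M i j * (X h j l : ℝ))| ≤
        B * Real.exp (c i * q h) := by
      intro l
      rw [abs_mul, Nat.abs_cast]
      refine mul_le_mul (by exact_mod_cast hz h l) ?_ (abs_nonneg _) (Nat.cast_nonneg _)
      split_ifs with hl
      · simpa using (Real.exp_pos _).le
      · exact hX1 h i l hl
    refine (Finset.sum_le_sum fun l _ => h1 l).trans ?_
    simp only [Finset.sum_const, Finset.card_univ, nsmul_eq_mul]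
    nlinarith [Real.exp_pos (c i * q h)]
  · intro h i
    refine Finset.dvd_sum fun l _ => Dvd.dvd.mul_left ?_ _
    split_ifs with hl
    · exact dvd_zero _
    · exact hX2 h i l hl

end Pool.Agent.MP_077ac3_nt.H18
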