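import Pool.Agent.MP_077ac3_nt.H18.Grid

set_option autoImplicit false

/-! Roth's lemma for hyperplanes. -/

namespace Pool.Agent.MP_077ac3_nt.H18

open MvPolynomial

theorem shift_map_C {σ τ : Type} (y : σ → MvPolynomial τ ℚ) (P : MvPolynomial σ ℚ) :
    shift y (map C P) = aeval (fun s => (C (y s) + X s : MvPolynomial σ (MvPolynomial τ ℚ))) P := by
  induction P using MvPolynomial.induction_on with
  | C a => simp [MvPolynomial.algebraMap_apply]
  | add p q hp hq => simp [hp, hq]
  | mul_X p s hp => simp [hp]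

theorem grid_step {m : ℕ} {ι κ : Type} [Fintype ι] [Fintype κ] (B : ℕ) (d : Fin m → ℕ)
    (hd : ∀ h, 0 < d h) (P : MvPolynomial (Fin m × ι) ℚ) (hP : Hom d P)
    (x : Fin m → κ → ι → ℚ) (t : Fin m → κ → ℚ) (I : Fin m × ι →₀ ℕ)
    (hI : coeff I (shift (fun s : Fin m × ι => ∑ l, t s.1 l * x s.1 l s.2) P) ≠ 0) (θ : ℝ)
    (hθ : wt (fun s => 1 / (d s.1 : ℝ)) I + m * Fintype.card κ / (B + 1 : ℝ) < θ) :
    ∃ z : Fin m → κ → ℕ, (∀ h l, z h l ≤ B) ∧ ∃ J : Fin m × ι →₀ ℕ,
      wt (fun s => 1 / (d s.1 : ℝ)) J < θ ∧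
      coeff J (shift (fun s : Fin m × ι => ∑ l, (z s.1 l : ℚ) * x s.1 l s.2) P) ≠ 0 := by
  classical
  set lin : Fin m × ι → MvPolynomial (Fin m × κ) ℚ :=
    fun s => ∑ l, C (x s.1 l s.2) * X (s.1, l) with hlin
  set G := shift lin (map C P) with hG
  set Q := coeff I G with hQ
  have hQ0 : Q ≠ 0 := by
    intro h0
    apply hI
    have h1 : eval (fun p : Fin m × κ => t p.1 p.2) Q = 0 := by rw [h0, map_zero]
    rw [hQ, ← coeff_map, hG, map_shift, map_map] at h1
    have h2 : (eval (fun p : Fin m × κ => t p.1 p.2)).comp (C : ℚ →+* _) = RingHom.id ℚ := by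
      ext
      simp
    rw [h2, map_id] at h1
    have h3 : (fun s => eval (fun p : Fin m × κ => t p.1 p.2) (lin s)) =
        fun s : Fin m × ι => ∑ l, t s.1 l * x s.1 l s.2 := by
      funext s
      simp [hlin, mul_comm]
    rw [h3] at h1
    exact h1
  have hlinF : ∀ (w' : Fin m × κ → ℝ) (v : Fin m → ℝ) (s : Fin m × ι), (∀ l, v s.1 ≤ w' (s.1, l)) →
      ((Fil.triv ℚ).poly w').mem (v s.1) (lin s) := by
    intro w' v s hv
    refine Fil.sum _ _ _ fun l _ => ?_
    have := ((Fil.triv ℚ).poly w').mul (Fil.poly_C _ w' (Fil.triv_zero (x s.1 l s.2)))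
      (Fil.poly_X _ w' (s.1, l))
    exact Fil.mono _ (by simpa using hv l) this
  have hdeg : ∀ p : Fin m × κ, Q.degreeOf p ≤ d p.1 := by
    intro p
    set w' : Fin m × κ → ℝ := fun p' => if p' = p then -1 else 0 with hw'
    set v : Fin m → ℝ := fun h => if h = p.1 then -1 else 0 with hv
    have hv0 : ∀ h, v h ≤ 0 := fun h => by simp only [hv]; split_ifs <;> norm_num
    have h1 : (((Fil.triv ℚ).poly w').poly (fun _ : Fin m × ι => (0 : ℝ))).mem (-(d p.1 : ℝ)) G := by
      rw [hG, shift_map_C]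
      refine Fil.aeval_mem _ (fun s : Fin m × ι => v s.1) _ (fun r => ?_) (fun s => ?_) P ?_
      · exact Fil.poly_C _ _ (Fil.poly_C _ _ (Fil.triv_zero r))
      · refine Fil.add _ (Fil.poly_C _ _ (hlinF w' v s fun l => ?_))
          (Fil.mono _ (hv0 _) (Fil.poly_X _ _ s))
        simp only [hv, hw']
        by_cases h : (s.1, l) = p
        · subst h; simp
        · simp only [h, if_false]; exact hv0 _
      · intro J hJ
        rw [wt_eq_sum, Fintype.sum_prod_type, ← hP J hJ p.1]
        rw [Finset.sum_eq_single p.1]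
        · simp [hv]
        · intro h _ hne; simp [hv, hne]
        · simp
    have h2 := h1 I
    rw [← hQ] at h2
    have h3 : wt (fun _ : Fin m × ι => (0 : ℝ)) I = 0 := by simp [wt_eq_sum]
    rw [h3, sub_zero, Fil.triv_poly_iff] at h2
    rw [degreeOf_le_iff]
    intro μ hμ
    have h4 := h2 μ hμ
    rw [wt_eq_sum, Finset.sum_eq_single p] at h4
    · simp only [hw', if_true, mul_neg, mul_one, neg_le_neg_iff] at h4
      exact_mod_cast h4
    · intro b _ hb; simp [hw', hb]
    · simp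
  obtain ⟨z, μ, hz, hμ, hc⟩ := grid B Q (fun p => d p.1) hQ0 hdeg
  refine ⟨fun h l => z (h, l), fun h l => hz _, ?_⟩
  by_contra hcon
  push Not at hcon
  set y0 : Fin m × ι → ℚ := fun s => ∑ l, (z (s.1, l) : ℚ) * x s.1 l s.2 with hy0
  have e1 : shift (fun p => (z p : ℚ)) Q = coeff I (shift lin (map C (shift y0 P))) := by
    have : shift (fun p => (z p : ℚ)) Q = (shift (fun p => (z p : ℚ))).toRingHom Q := rfl
    rw [this, hQ, ← coeff_map, hG, map_shift, map_map, map_shift, shift_shift]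
    have h2 : (shift (fun p : Fin m × κ => (z p : ℚ))).toRingHom.comp (C : ℚ →+* _) = C := by
      ext1
      simp
    rw [h2]
    congr 3
    funext s
    simp [hlin, hy0, add_mul, Finset.sum_add_distrib, mul_comm]
  have h1 : (((Fil.triv ℚ).poly (fun p : Fin m × κ => 1 / (d p.1 : ℝ))).poly
      (fun s : Fin m × ι => 1 / (d s.1 : ℝ))).mem θ (shift lin (map C (shift y0 P))) := by
    rw [shift_map_C]
    refine Fil.aeval_mem _ (fun s : Fin m × ι => 1 / (d s.1 : ℝ)) _ (fun r => ?_) (fun s => ?_) _ ?_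
    · exact Fil.poly_C _ _ (Fil.poly_C _ _ (Fil.triv_zero r))
    · exact Fil.add _ (Fil.poly_C _ _ (hlinF _ (fun h => 1 / (d h : ℝ)) s fun l => le_rfl))
        (Fil.poly_X _ _ s)
    · intro J hJ
      by_contra hlt
      exact mem_support_iff.1 hJ (hcon J (not_le.1 hlt))
  have h2 := h1 I μ
  rw [← e1] at h2
  rcases h2 with h2 | h2
  · have h3 : wt (fun p : Fin m × κ => 1 / (d p.1 : ℝ)) μ ≤ m * Fintype.card κ / (B + 1 : ℝ) := by
      rw [wt_eq_sum]
      have : ∀ p : Fin m × κ, (μ p : ℝ) * (1 / (d p.1 : ℝ)) ≤ 1 / (B + 1 : ℝ) := by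
        intro p
        have h4 : (0 : ℝ) < d p.1 := by exact_mod_cast hd p.1
        have h5 : (μ p : ℝ) * (B + 1) ≤ d p.1 := by exact_mod_cast hμ p
        rw [mul_one_div, div_le_div_iff₀ h4 (by positivity)]
        linarith
      refine (Finset.sum_le_sum fun p _ => this p).trans (le_of_eq ?_)
      simp [Finset.sum_const, div_eq_mul_inv]
    linarith
  · exact hc h2

theorem exists_eval_coeff {σ τ : Type} (G : MvPolynomial σ (MvPolynomial τ ℚ)) (k : σ →₀ ℕ)
    (J : τ →₀ ℕ) (h : coeff J (coeff k G) ≠ 0) :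
    ∃ ζ : σ → ℚ, coeff J (eval (fun s => C (ζ s)) G) ≠ 0 := by
  classical
  by_contra hcon
  push Not at hcon
  set g : MvPolynomial σ ℚ := ∑ k' ∈ G.support, monomial k' (coeff J (coeff k' G)) with hg
  have hg0 : g = 0 := by
    refine MvPolynomial.funext fun ζ => ?_
    have := hcon ζ
    rw [eval_eq, coeff_sum] at this
    rw [map_zero, ← this, hg, map_sum]
    refine Finset.sum_congr rfl fun k' _ => ?_
    rw [eval_monomial]
    have e : (∏ i ∈ k'.support, (C (ζ i) : MvPolynomial τ ℚ) ^ k' i) =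
        C (k'.prod fun i e => ζ i ^ e) := by
      simp [Finsupp.prod]
    rw [e, mul_comm (coeff k' G), coeff_C_mul, mul_comm]
  have hk : k ∈ G.support := by
    rw [mem_support_iff]; intro h0; simp [h0] at h
  have := congrArg (coeff k) hg0
  rw [hg, coeff_sum, Finset.sum_eq_single k] at this
  · simp at this; exact h this
  · intro b _ hb; simp [coeff_monomial, hb]
  · intro h'; exact absurd hk h'

theorem elim_step {m : ℕ} {ι : Type} [Fintype ι] [DecidableEq ι] (d : Fin m → ℕ)
    (P : MvPolynomial (Fin m × ι) ℤ) (hP0 : P ≠ 0) (hP : Hom d P) (a b : Fin m → ι)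
    (hab : ∀ h, b h ≠ a h) (w : Fin m → ι → ℚ) (hw : ∀ h, w h (a h) ≠ 0) :
    ∃ R : MvPolynomial (Fin m) ℤ, R ≠ 0 ∧ (∀ h, R.degreeOf h ≤ d h) ∧ l1 R ≤ l1 P ∧
      ∀ (J0 : Fin m →₀ ℕ) (θ : ℝ), wt (fun h => 1 / (d h : ℝ)) J0 < θ →
        coeff J0 (shift (fun h => -(w h (b h) / w h (a h))) (map (Int.castRingHom ℚ) R)) ≠ 0 →
        ∃ u : Fin m × ι → ℚ, (∀ h, ∑ i, w h i * u (h, i) = 0) ∧ ∃ I : Fin m × ι →₀ ℕ,
          wt (fun s => 1 / (d s.1 : ℝ)) I < θ ∧
          coeff I (shift u (map (Int.castRingHom ℚ) P)) ≠ 0 := by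
  classical
  set kf : (Fin m × ι →₀ ℕ) → (Fin m × ι →₀ ℕ) :=
    fun J => J.filter (fun s => s.2 ≠ a s.1 ∧ s.2 ≠ b s.1) with hkf
  set af : (Fin m × ι →₀ ℕ) → (Fin m →₀ ℕ) :=
    fun J => Finsupp.equivFunOnFinite.symm (fun h => J (h, a h)) with haf
  have haf' : ∀ J h, af J h = J (h, a h) := fun J h => rfl
  obtain ⟨J1, hJ1, hmin⟩ := P.support.exists_min_image (fun J => ∑ s, kf J s)
    (support_nonempty.2 hP0)
  set T := P.support.filter (fun J => kf J = kf J1) with hT
  have hinj : ∀ J ∈ P.support, kf J = kf J1 → af J = af J1 → J = J1 := by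
    intro J hJ h1 h2
    have h3 : ∀ h i, i ≠ b h → J (h, i) = J1 (h, i) := by
      intro h i hi
      by_cases hia : i = a h
      · subst hia
        rw [← haf', h2, haf']
      · have := congrArg (fun f => f (h, i)) h1
        simpa [hkf, Finsupp.filter_apply, hia, hi] using this
    ext ⟨h, i⟩
    by_cases hi : i = b h
    · subst hi
      have e1 := hP J hJ h
      have e2 := hP J1 hJ1 h
      rw [← Finset.add_sum_erase _ _ (Finset.mem_univ (b h))] at e1 e2
      have e3 : ∑ i ∈ Finset.univ.erase (b h), J (h, i) =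
          ∑ i ∈ Finset.univ.erase (b h), J1 (h, i) :=
        Finset.sum_congr rfl fun i hi => h3 h i (Finset.ne_of_mem_erase hi)
      omega
    · exact h3 h i hi
  refine ⟨∑ J ∈ T, monomial (af J) (coeff J P), ?_, ?_, ?_, ?_⟩
  · intro h0
    have := congrArg (coeff (af J1)) h0
    rw [coeff_sum, Finset.sum_eq_single J1] at this
    · simp at this; exact mem_support_iff.1 hJ1 this
    · intro J hJ hne
      rw [coeff_monomial, if_neg]
      intro h2
      have hJ' := Finset.mem_filter.1 hJ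
      exact hne (hinj J hJ'.1 hJ'.2 h2)
    · intro h'; exact absurd (by simp only [hT, Finset.mem_filter]; exact ⟨hJ1, trivial⟩) h'
  · intro h
    refine (degreeOf_sum_le _ _ _).trans (Finset.sup_le fun J hJ => ?_)
    rw [degreeOf_le_iff]
    intro μ hμ
    have := Finset.mem_singleton.1 (support_monomial_subset hμ)
    subst this
    rw [haf', ← hP J (Finset.mem_filter.1 hJ).1 h]
    exact Finset.single_le_sum (f := fun i => J (h, i)) (fun _ _ => Nat.zero_le _)
      (Finset.mem_univ _)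
  · rw [l1_eq]
    refine (Nrm.sum_le _ _ _).trans ?_
    simp only [Nrm.poly_monomial, Nrm.sc_one, mul_one]
    exact Finset.sum_le_sum_of_subset_of_nonneg (Finset.filter_subset _ _)
      fun _ _ _ => abs_nonneg _
  intro J0 θ hθ hc
  set base : Fin m × ι → MvPolynomial (Fin m × ι) (MvPolynomial (Fin m) ℚ) :=
    fun s => if s.2 = b s.1 then 1 else X s with hbase
  set ψ : Fin m → MvPolynomial (Fin m × ι) (MvPolynomial (Fin m) ℚ) :=
    fun h => C (X h) - ∑ j ∈ Finset.univ.erase (a h), C (C (w h j / w h (a h))) * base (h, j)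
    with hψ
  set φ : Fin m × ι → MvPolynomial (Fin m × ι) (MvPolynomial (Fin m) ℚ) :=
    fun s => if s.2 = a s.1 then ψ s.1 else base s with hφ
  set PQ := map (Int.castRingHom ℚ) P with hPQ
  have hcψ : ∀ h, constantCoeff (ψ h) = C (-(w h (b h) / w h (a h))) + X h := by
    intro h
    simp only [hψ, map_sub, map_sum, map_mul, constantCoeff_C]
    rw [Finset.sum_eq_single (b h)]
    · simp [hbase]; ring
    · intro j _ hj; simp [hbase, hj]
    · intro h'; exact absurd (Finset.mem_erase.2 ⟨hab h, Finset.mem_univ _⟩) h'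
  have hmon : ∀ J : Fin m × ι →₀ ℕ,
      ∏ s, φ s ^ J s = monomial (kf J) 1 * ∏ h, ψ h ^ J (h, a h) := by
    intro J
    have e1 : ∀ s, φ s ^ J s = X s ^ (kf J s) * (if s.2 = a s.1 then ψ s.1 ^ J s else 1) := by
      intro s
      by_cases h1 : s.2 = a s.1
      · simp [hφ, hkf, h1]
      · by_cases h2 : s.2 = b s.1
        · simp only [hφ, hkf, hbase, Finsupp.filter_apply, if_neg h1, if_pos h2]
          simp [h2]
        · simp [hφ, hkf, hbase, h1, h2]
    simp only [e1, Finset.prod_mul_distrib]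
    congr 1
    · rw [monomial_eq, Finsupp.prod_fintype _ _ (by simp)]; simp
    · rw [Fintype.prod_prod_type]
      refine Finset.prod_congr rfl fun h _ => ?_
      simp
  have hG : coeff (kf J1) (aeval φ PQ) = shift (fun h => -(w h (b h) / w h (a h)))
      (map (Int.castRingHom ℚ) (∑ J ∈ T, monomial (af J) (coeff J P))) := by
    conv_lhs => rw [hPQ, P.as_sum]
    simp only [map_sum, map_monomial, coeff_sum, aeval_monomial]
    rw [hT, Finset.sum_filter]
    refine Finset.sum_congr rfl fun J hJ => ?_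
    rw [Finsupp.prod_fintype _ _ (by simp), hmon, MvPolynomial.algebraMap_apply, coeff_C_mul,
      coeff_monomial_mul']
    by_cases h1 : kf J = kf J1
    · rw [if_pos h1, if_pos h1.le, h1, tsub_self, one_mul, ← constantCoeff_eq, map_prod]
      simp only [map_pow, hcψ, shift, aeval_monomial]
      rw [Finsupp.prod_fintype _ _ (by simp)]
      simp [haf']
    · rw [if_neg h1, if_neg, mul_zero]
      intro hle
      apply h1
      have h2 := hmin J hJ
      ext s
      by_contra hne
      have : ∑ s, kf J s < ∑ s, kf J1 s :=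
        Finset.sum_lt_sum (fun s _ => hle s) ⟨s, Finset.mem_univ _, lt_of_le_of_ne (hle s) hne⟩
      omega
  rw [← hG] at hc
  obtain ⟨ζ, hζ⟩ := exists_eval_coeff _ _ _ hc
  set ub : Fin m × ι → ℚ := fun s => if s.2 = b s.1 then 1 else ζ s with hub
  set u : Fin m × ι → ℚ := fun s => if s.2 = a s.1 then
    -∑ j ∈ Finset.univ.erase (a s.1), w s.1 j / w s.1 (a s.1) * ub (s.1, j) else ub s with hu
  refine ⟨u, fun h => ?_, ?_⟩
  · rw [← Finset.add_sum_erase _ _ (Finset.mem_univ (a h))]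
    have e1 : ∑ j ∈ Finset.univ.erase (a h), w h j * u (h, j) =
        ∑ j ∈ Finset.univ.erase (a h), w h j * ub (h, j) :=
      Finset.sum_congr rfl fun j hj => by simp [hu, Finset.ne_of_mem_erase hj]
    rw [e1]
    simp only [hu, if_true, mul_neg, Finset.mul_sum]
    rw [neg_add_eq_zero]
    refine Finset.sum_congr rfl fun j _ => ?_
    have := hw h
    field_simp
  set χ : Fin m × ι → MvPolynomial (Fin m) ℚ := fun s => if s.2 = a s.1 then X s.1 else 0 with hχ
  have hb : ∀ s, eval (fun s => (C (ζ s) : MvPolynomial (Fin m) ℚ)) (base s) = C (ub s) := by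
    intro s
    simp only [hbase, hub]
    split_ifs <;> simp
  have hev : ∀ Q : MvPolynomial (Fin m × ι) ℚ,
      eval (fun s => (C (ζ s) : MvPolynomial (Fin m) ℚ)) (aeval φ Q) = aeval χ (shift u Q) := by
    intro Q
    induction Q using MvPolynomial.induction_on with
    | C a => simp [MvPolynomial.algebraMap_apply]
    | add p q hp hq => simp [hp, hq]
    | mul_X p s hp =>
      simp only [map_mul, hp, aeval_X, shift_X, map_add, aeval_C]
      congr 1
      by_cases h1 : s.2 = a s.1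
      · simp only [hφ, hχ, hu, if_pos h1, hψ, map_sub, map_sum, map_mul, eval_C, hb, map_neg,
          algebraMap_eq]
        ring
      · simp [hφ, hχ, hu, if_neg h1, hb]
  rw [hev] at hζ
  by_contra hcon
  push Not at hcon
  have h1 : ((Fil.triv ℚ).poly (fun h : Fin m => 1 / (d h : ℝ))).mem θ (aeval χ (shift u PQ)) := by
    refine Fil.aeval_mem _ (fun s : Fin m × ι => 1 / (d s.1 : ℝ)) _ (fun r => ?_) (fun s => ?_) _ ?_
    · exact Fil.poly_C _ _ (Fil.triv_zero r)
    · simp only [hχ]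
      split_ifs
      · exact Fil.poly_X _ _ s.1
      · exact Fil.zero _ _
    · intro J hJ
      by_contra hlt
      exact mem_support_iff.1 hJ (hcon J (not_le.1 hlt))
  rcases h1 J0 with h2 | h2
  · linarith
  · exact hζ h2

theorem exists_den {ι : Type} [Fintype ι] [DecidableEq ι] (w : ι → ℤ)
    (hw : Finset.univ.gcd w = 1) (a : ι) (ha : 1 < |(w a : ℝ)|) :
    ∃ b, b ≠ a ∧ |(w a : ℝ)| ≤ (((-((w b : ℚ) / w a)).den : ℕ) : ℝ) ^ Fintype.card ι := by
  have ha0 : w a ≠ 0 := by
    intro h; rw [h] at ha; norm_num at ha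
  set den : ι → ℕ := fun j => ((w j : ℚ) / w a).den with hden
  obtain ⟨b, -, hb⟩ := Finset.univ.exists_max_image den ⟨a, Finset.mem_univ _⟩
  have h1 : ∀ j, w a ∣ w j * den j := by
    intro j
    refine ⟨((w j : ℚ) / w a).num, ?_⟩
    have h2 : (w a : ℚ) ≠ 0 := by exact_mod_cast ha0
    have h3 := Rat.mul_den_eq_num ((w j : ℚ) / w a)
    have : ((w j * den j : ℤ) : ℚ) = (w a * ((w j : ℚ) / w a).num : ℤ) := by
      push_cast
      rw [← h3]
      simp only [hden]
      field_simp
    exact_mod_cast this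
  have h2 : w a ∣ ((∏ j, den j : ℕ) : ℤ) := by
    have h3 : w a ∣ Finset.univ.gcd (fun j => w j * ((∏ j, den j : ℕ) : ℤ)) := by
      refine Finset.dvd_gcd fun j _ => (h1 j).trans (mul_dvd_mul_left _ ?_)
      exact_mod_cast Finset.dvd_prod_of_mem den (Finset.mem_univ j)
    rw [Finset.gcd_mul_right, hw, one_mul] at h3
    exact dvd_normalize_iff.1 h3
  have hpos : 0 < ∏ j, den j := Finset.prod_pos fun j _ => Rat.den_pos _
  have h3 : |w a| ≤ ((∏ j, den j : ℕ) : ℤ) :=
    Int.le_of_dvd (by exact_mod_cast hpos) ((abs_dvd _ _).2 h2)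
  have h4 : ∏ j, den j ≤ den b ^ Fintype.card ι :=
    Finset.prod_le_pow_card _ _ _ fun j hj => hb j hj
  have h5 : |(w a : ℝ)| ≤ (den b : ℝ) ^ Fintype.card ι := by
    have : |w a| ≤ ((den b ^ Fintype.card ι : ℕ) : ℤ) := h3.trans (by exact_mod_cast h4)
    exact_mod_cast this
  refine ⟨b, ?_, by rw [Rat.neg_den]; exact h5⟩
  rintro rfl
  have h6 : den b = 1 := by
    have h2 : (w b : ℚ) ≠ 0 := by exact_mod_cast ha0
    simp [hden, div_self h2]
  rw [h6] at h5
  simp only [Nat.cast_one, one_pow] at h5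
  linarith

theorem groth_of (hR : RothStmt) : GRothStmt := by
  intro ι κ _ _ _ m θ hθ
  obtain ⟨σ, hσ, hR⟩ := hR m (θ / 2) (by linarith)
  obtain ⟨B, hB⟩ := exists_nat_gt (4 * (m * Fintype.card κ) / θ)
  have hN : (0 : ℝ) < Fintype.card ι + 1 := by positivity
  refine ⟨σ / (Fintype.card ι + 1), by positivity, B, ?_⟩
  intro d P x w hd hdd hP0 hP hw hspan hht
  have hσle : σ / (Fintype.card ι + 1) ≤ σ := div_le_self hσ.le (by simp)
  have hch : ∀ h, ∃ a b : ι, b ≠ a ∧ w h a ≠ 0 ∧ Real.log (l1 P) + ∑ h', (d h' : ℝ) ≤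
      σ * d h * Real.log ((-((w h b : ℚ) / w h a)).den : ℝ) := by
    intro h
    obtain ⟨a, ha⟩ := hht h
    have hdh : (0 : ℝ) < d h := by exact_mod_cast hd h
    have hpos : 0 < Real.log (l1 P) + ∑ h', (d h' : ℝ) := by
      have h1 := Real.log_nonneg (one_le_l1 hP0)
      have h2 : (d h : ℝ) ≤ ∑ h', (d h' : ℝ) :=
        Finset.single_le_sum (f := fun h' => (d h' : ℝ)) (fun _ _ => Nat.cast_nonneg _)
          (Finset.mem_univ _)
      linarith
    have hlog : 0 < Real.log |(w h a : ℝ)| := by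
      by_contra hle
      have : σ / (Fintype.card ι + 1) * d h * Real.log |(w h a : ℝ)| ≤ 0 :=
        mul_nonpos_of_nonneg_of_nonpos (by positivity) (not_lt.1 hle)
      linarith
    have h1 : 1 < |(w h a : ℝ)| := (Real.log_pos_iff (abs_nonneg _)).1 hlog
    obtain ⟨b, hb, hle⟩ := exists_den (w h) (hw h) a h1
    refine ⟨a, b, hb, ?_, ha.trans ?_⟩
    · intro h0; rw [h0] at h1; norm_num at h1
    · set den : ℝ := ((-((w h b : ℚ) / w h a)).den : ℝ) with hden
      have hden1 : 1 ≤ den := by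
        rw [hden]; exact_mod_cast Rat.den_pos _
      have h2 : Real.log |(w h a : ℝ)| ≤ (Fintype.card ι + 1) * Real.log den := by
        have := Real.log_le_log (by linarith) hle
        rw [Real.log_pow] at this
        have := Real.log_nonneg hden1
        linarith
      calc σ / (Fintype.card ι + 1) * d h * Real.log |(w h a : ℝ)|
          ≤ σ / (Fintype.card ι + 1) * d h * ((Fintype.card ι + 1) * Real.log den) :=
            mul_le_mul_of_nonneg_left h2 (by positivity)
        _ = σ * d h * Real.log den := by field_simp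
  choose a b hab hwa hden using hch
  obtain ⟨R, hR0, hRd, hRl, hRe⟩ := elim_step d P hP0 hP a b hab (fun h i => (w h i : ℚ))
    (fun h => by exact_mod_cast hwa h)
  obtain ⟨J0, hJ0, hc⟩ := hR d R (fun h => -((w h (b h) : ℚ) / w h (a h))) hd
    (fun h h' hh => (hdd h h' hh).trans (mul_le_mul_of_nonneg_right hσle (Nat.cast_nonneg _)))
    hR0 hRd (fun h => le_trans (by
      have := Real.log_le_log (lt_of_lt_of_le one_pos (one_le_l1 hR0)) hRl
      linarith) (hden h))
  obtain ⟨u, hu, I, hI, hcI⟩ := hRe J0 (3 * θ / 4) (by linarith) hc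
  choose t ht using fun h => hspan h (fun i => u (h, i)) (hu h)
  have hu' : u = fun s : Fin m × ι => ∑ l, t s.1 l * (x s.1 l s.2 : ℚ) :=
    funext fun s => ht s.1 s.2
  rw [hu'] at hcI
  have hPQ : Hom d (map (Int.castRingHom ℚ) P) := fun J hJ => hP J (support_map_subset _ _ hJ)
  obtain ⟨z, hz, J, hJ, hcJ⟩ := grid_step B d hd _ hPQ (fun h l i => (x h l i : ℚ)) t I hcI θ (by
    have h1 : (m : ℝ) * Fintype.card κ / (B + 1 : ℝ) ≤ θ / 4 := by
      rw [div_lt_iff₀ hθ] at hB
      rw [div_le_iff₀ (by positivity)]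
      nlinarith
    linarith)
  refine ⟨z, hz, J, hJ.le, fun h0 => hcJ ?_⟩
  have := congrArg (Int.castRingHom ℚ) h0
  rw [← coeff_map, map_shift] at this
  simpa using this

end Pool.Agent.MP_077ac3_nt.H18
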