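import Pool.Agent.MP_077ac3_nt.H18.Kit

set_option autoImplicit false

/-! The grid lemma. -/

namespace Pool.Agent.MP_077ac3_nt.H18

open MvPolynomial

theorem grid_one {A : Type} [CommRing A] [IsDomain A] [CharZero A] (f : Polynomial A) (hf : f ≠ 0)
    (D B : ℕ) (hD : f.natDegree ≤ D) :
    ∃ a : ℕ, a ≤ B ∧ ∃ k : ℕ, k * (B + 1) ≤ D ∧ (Polynomial.taylor (a : A) f).coeff k ≠ 0 := by
  classical
  by_contra hcon
  push Not at hcon
  have h1 : ∀ a : ℕ, a ≤ B → D < f.rootMultiplicity (a : A) * (B + 1) := by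
    intro a ha
    by_contra hlt
    push Not at hlt
    have h0 := hcon a ha _ hlt
    rw [Polynomial.rootMultiplicity_eq_natTrailingDegree, ← Polynomial.taylor_apply] at h0
    have hne : Polynomial.taylor (a : A) f ≠ 0 := by simpa using hf
    exact hne (Polynomial.trailingCoeff_eq_zero.1 h0)
  have h2 : ∑ a ∈ Finset.range (B + 1), f.rootMultiplicity (a : A) ≤ D := by
    have : ∑ a ∈ Finset.range (B + 1), f.rootMultiplicity (a : A) =
        ∑ x ∈ (Finset.range (B + 1)).image (fun a : ℕ => (a : A)), f.roots.count x := by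
      rw [Finset.sum_image (fun a _ b _ h => Nat.cast_injective h)]
      simp [Polynomial.count_roots]
    rw [this]
    refine le_trans ?_ ((Polynomial.card_roots' f).trans hD)
    calc ∑ x ∈ (Finset.range (B + 1)).image (fun a : ℕ => (a : A)), f.roots.count x
        ≤ ∑ x ∈ (Finset.range (B + 1)).image (fun a : ℕ => (a : A)) ∪ f.roots.toFinset,
          f.roots.count x := Finset.sum_le_sum_of_subset Finset.subset_union_left
      _ = f.roots.card := by
          refine Multiset.sum_count_eq_card fun a ha => ?_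
          simp [Multiset.mem_toFinset.2 ha]
  have h3 : ∑ _a ∈ Finset.range (B + 1), (D + 1) ≤
      ∑ a ∈ Finset.range (B + 1), f.rootMultiplicity (a : A) * (B + 1) :=
    Finset.sum_le_sum fun a ha => h1 a (by simpa [Nat.lt_succ_iff] using ha)
  rw [← Finset.sum_mul] at h3
  simp only [Finset.sum_const, Finset.card_range, smul_eq_mul] at h3
  nlinarith

theorem finSuccEquiv_shift {R : Type} [CommRing R] {n : ℕ} (y : Fin (n + 1) → R)
    (Q : MvPolynomial (Fin (n + 1)) R) :
    finSuccEquiv R n (shift y Q) =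
      Polynomial.map (shift (fun s => y s.succ)).toRingHom
        (Polynomial.taylor (C (y 0)) (finSuccEquiv R n Q)) := by
  induction Q using MvPolynomial.induction_on with
  | C a => simp [finSuccEquiv_apply]
  | add p q hp hq => simp only [map_add, hp, hq, Polynomial.map_add]
  | mul_X p s hp =>
    simp only [map_mul, hp, Polynomial.taylor_mul, Polynomial.map_mul, shift_X, map_add]
    congr 1
    refine Fin.cases ?_ (fun j => ?_) s
    · simp [finSuccEquiv_apply, add_comm]
    · simp [finSuccEquiv_apply]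

theorem grid_fin (B : ℕ) : ∀ (n : ℕ) (Q : MvPolynomial (Fin n) ℚ) (D : Fin n → ℕ), Q ≠ 0 →
    (∀ s, Q.degreeOf s ≤ D s) →
    ∃ (z : Fin n → ℕ) (μ : Fin n →₀ ℕ), (∀ s, z s ≤ B) ∧ (∀ s, μ s * (B + 1) ≤ D s) ∧
      coeff μ (shift (fun s => (z s : ℚ)) Q) ≠ 0 := by
  intro n
  induction n with
  | zero =>
    intro Q D hQ _
    obtain ⟨μ, hμ⟩ := ne_zero_iff.1 (shift_ne_zero (fun s : Fin 0 => ((0 : ℕ) : ℚ)) hQ)
    exact ⟨fun _ => 0, μ, fun s => s.elim0, fun s => s.elim0, hμ⟩
  | succ n ih =>
    intro Q D hQ hD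
    set f := finSuccEquiv ℚ n Q with hf
    have hf0 : f ≠ 0 := by simpa [hf] using hQ
    obtain ⟨a, ha, k, hk, hne⟩ := grid_one f hf0 (D 0) B
      (by rw [hf, natDegree_finSuccEquiv]; exact hD 0)
    set Q' := (Polynomial.taylor (a : MvPolynomial (Fin n) ℚ) f).coeff k with hQ'
    have hdeg : ∀ s, Q'.degreeOf s ≤ D s.succ := by
      intro s
      have key : ∀ i, (f.coeff i).degreeOf s ≤ D s.succ := fun i =>
        (degreeOf_coeff_finSuccEquiv Q s i).trans (hD _)
      rw [hQ', Polynomial.taylor_coeff, Polynomial.eval_eq_sum_range]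
      refine (degreeOf_sum_le _ _ _).trans (Finset.sup_le fun i _ => ?_)
      rw [Polynomial.hasseDeriv_coeff]
      have e1 : ((((i + k).choose k : ℕ) : MvPolynomial (Fin n) ℚ) * f.coeff (i + k)) *
          (a : MvPolynomial (Fin n) ℚ) ^ i =
          C ((((i + k).choose k : ℕ) : ℚ) * (a : ℚ) ^ i) * f.coeff (i + k) := by
        simp only [map_mul, map_pow, map_natCast]; ring
      rw [e1]
      exact (degreeOf_C_mul_le _ _ _).trans (key _)
    obtain ⟨z, μ, hz, hμ, hc⟩ := ih Q' (fun s => D s.succ) hne hdeg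
    refine ⟨Fin.cons a z, μ.cons k, fun s => Fin.cases ha (fun j => hz j) s,
      fun s => Fin.cases (by simpa using hk) (fun j => by simpa using hμ j) s, ?_⟩
    rw [← finSuccEquiv_coeff_coeff, finSuccEquiv_shift, Polynomial.coeff_map]
    simpa [hQ', hf] using hc

theorem rename_shift {σ τ R : Type} [CommRing R] (e : σ → τ) (y : τ → R) (Q : MvPolynomial σ R) :
    rename e (shift (fun s => y (e s)) Q) = shift y (rename e Q) := by
  induction Q using MvPolynomial.induction_on with
  | C a => simp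
  | add p q hp hq => simp [hp, hq]
  | mul_X p s hp => simp [hp]

theorem grid {τ : Type} [Fintype τ] (B : ℕ) (Q : MvPolynomial τ ℚ) (D : τ → ℕ) (hQ : Q ≠ 0)
    (hD : ∀ s, Q.degreeOf s ≤ D s) :
    ∃ (z : τ → ℕ) (μ : τ →₀ ℕ), (∀ s, z s ≤ B) ∧ (∀ s, μ s * (B + 1) ≤ D s) ∧
      coeff μ (shift (fun s => (z s : ℚ)) Q) ≠ 0 := by
  classical
  set e := Fintype.equivFin τ
  obtain ⟨z, μ, hz, hμ, hc⟩ := grid_fin B _ (rename e Q) (fun s => D (e.symm s))
    (by
      intro h
      exact hQ (rename_injective e e.injective (by simpa using h)))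
    (fun s => by
      have := degreeOf_rename_of_injective (p := Q) e.injective (e.symm s)
      simp only [Equiv.apply_symm_apply] at this
      rw [this]; exact hD _)
  refine ⟨fun s => z (e s), μ.mapDomain e.symm, fun s => hz _, fun s => ?_, ?_⟩
  · have := hμ (e s)
    rw [Finsupp.mapDomain_equiv_apply]
    simpa using this
  · rw [← rename_shift e (fun s => (z s : ℚ)) Q] at hc
    rw [← coeff_rename_mapDomain e e.injective]
    rw [← Finsupp.mapDomain_comp]
    simpa using hc

end Pool.Agent.MP_077ac3_nt.H18
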