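import Pool.Agent.MP_077ac3_nt.H18.Defs

set_option autoImplicit false

/-!
Toolkit: filtrations (orders of vanishing, degrees) and weighted l1 norms on polynomial rings.
-/

namespace Pool.Agent.MP_077ac3_nt.H18

open MvPolynomial

section weights
variable {σ : Type}

@[simp] theorem wt_zero (w : σ → ℝ) : wt w 0 = 0 := by simp [wt]

theorem wt_add (w : σ → ℝ) (I J : σ →₀ ℕ) : wt w (I + J) = wt w I + wt w J := by
  classical
  unfold wt
  rw [Finsupp.sum_add_index']
  · simp
  · intro a b c; push_cast; ring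

@[simp] theorem wt_single (w : σ → ℝ) (s : σ) (k : ℕ) : wt w (Finsupp.single s k) = k * w s := by
  unfold wt
  rw [Finsupp.sum_single_index]; simp

theorem wt_eq_sum [Fintype σ] (w : σ → ℝ) (J : σ →₀ ℕ) : wt w J = ∑ s, (J s : ℝ) * w s := by
  unfold wt
  rw [Finsupp.sum_fintype]; simp

theorem wt_nonneg {w : σ → ℝ} (hw : ∀ s, 0 ≤ w s) (J : σ →₀ ℕ) : 0 ≤ wt w J :=
  Finset.sum_nonneg fun s _ => mul_nonneg (Nat.cast_nonneg _) (hw s)

end weights

/-- A decreasing multiplicative filtration of a commutative ring indexed by the reals. -/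
structure Fil (A : Type) [CommRing A] where
  mem : ℝ → A → Prop
  zero : ∀ θ, mem θ 0
  add : ∀ {θ a b}, mem θ a → mem θ b → mem θ (a + b)
  mul : ∀ {θ θ' a b}, mem θ a → mem θ' b → mem (θ + θ') (a * b)
  one : mem 0 1
  mono : ∀ {θ θ' a}, θ' ≤ θ → mem θ a → mem θ' a

namespace Fil
variable {A : Type} [CommRing A] (F : Fil A)

theorem sum {ι : Type} {θ : ℝ} (s : Finset ι) (f : ι → A) (h : ∀ i ∈ s, F.mem θ (f i)) :
    F.mem θ (∑ i ∈ s, f i) := by
  classical
  induction s using Finset.induction_on with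
  | empty => simpa using F.zero θ
  | insert a s ha ih =>
    rw [Finset.sum_insert ha]
    exact F.add (h a (by simp)) (ih fun i hi => h i (by simp [hi]))

theorem prod {ι : Type} (s : Finset ι) (θ : ι → ℝ) (f : ι → A)
    (h : ∀ i ∈ s, F.mem (θ i) (f i)) : F.mem (∑ i ∈ s, θ i) (∏ i ∈ s, f i) := by
  classical
  induction s using Finset.induction_on with
  | empty => simpa using F.one
  | insert a s ha ih =>
    rw [Finset.sum_insert ha, Finset.prod_insert ha]
    exact F.mul (h a (by simp)) (ih fun i hi => h i (by simp [hi]))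

theorem pow {θ : ℝ} {a : A} (h : F.mem θ a) (k : ℕ) : F.mem (k * θ) (a ^ k) := by
  induction k with
  | zero => simpa using F.one
  | succ k ih =>
    have := F.mul ih h
    rw [pow_succ]
    convert this using 1
    push_cast; ring

/-- The trivial filtration. -/
def triv (A : Type) [CommRing A] : Fil A where
  mem θ a := θ ≤ 0 ∨ a = 0
  zero _ := Or.inr rfl
  add := by
    rintro θ a b (h | rfl) h'
    · exact Or.inl h
    · simpa using h'
  mul := by
    rintro θ θ' a b (h | rfl) (h' | rfl)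
    · exact Or.inl (by linarith)
    · simp
    · simp
    · simp
  one := Or.inl le_rfl
  mono := by
    rintro θ θ' a h (h' | rfl)
    · exact Or.inl (h.trans h')
    · simp

theorem triv_zero (a : A) : (triv A).mem 0 a := Or.inl le_rfl

/-- The filtration on a polynomial ring given by weights of the variables. -/
def poly {σ : Type} (w : σ → ℝ) : Fil (MvPolynomial σ A) where
  mem θ P := ∀ J, F.mem (θ - wt w J) (coeff J P)
  zero θ J := by simpa using F.zero _
  add := fun h h' J => by rw [coeff_add]; exact F.add (h J) (h' J)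
  mul := by
    classical
    intro θ θ' a b h h' J
    rw [coeff_mul]
    refine F.sum _ _ fun p hp => ?_
    have hp' : p.1 + p.2 = J := by simpa using hp
    have := F.mul (h p.1) (h' p.2)
    convert this using 1
    rw [← hp', wt_add]; ring
  one := by
    classical
    intro J
    rw [coeff_one]
    split_ifs with h
    · subst h; simpa using F.one
    · exact F.zero _
  mono := fun h h' J => F.mono (by linarith) (h' J)

theorem poly_C {σ : Type} (w : σ → ℝ) {θ : ℝ} {a : A} (h : F.mem θ a) :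
    (F.poly w).mem θ (C a) := by
  classical
  intro J
  rw [coeff_C]
  split_ifs with hJ
  · subst hJ; simpa using h
  · exact F.zero _

theorem poly_X {σ : Type} (w : σ → ℝ) (s : σ) : (F.poly w).mem (w s) (X s) := by
  classical
  intro J
  rw [coeff_X]
  split_ifs with hJ
  · subst hJ; simpa using F.one
  · exact F.zero _

theorem triv_poly_iff {σ : Type} (w : σ → ℝ) (θ : ℝ) (P : MvPolynomial σ A) :
    ((triv A).poly w).mem θ P ↔ ∀ J ∈ P.support, θ ≤ wt w J := by
  constructor
  · intro h J hJ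
    rcases h J with h | h
    · linarith
    · exact absurd h (mem_support_iff.1 hJ)
  · intro h J
    by_cases hJ : coeff J P = 0
    · exact Or.inr hJ
    · exact Or.inl (by linarith [h J (mem_support_iff.2 hJ)])

/-- Substitution respects filtrations. -/
theorem aeval_mem {σ R : Type} [CommRing R] [Algebra R A] (w : σ → ℝ) (φ : σ → A) {θ : ℝ}
    (hR : ∀ r : R, F.mem 0 (algebraMap R A r)) (hφ : ∀ s, F.mem (w s) (φ s))
    (P : MvPolynomial σ R) (hP : ∀ J ∈ P.support, θ ≤ wt w J) : F.mem θ (aeval φ P) := by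
  rw [aeval_def, eval₂_eq]
  refine F.sum _ _ fun J hJ => ?_
  have h1 := F.prod J.support (fun s => (J s : ℝ) * w s) (fun s => φ s ^ J s)
    (fun s _ => F.pow (hφ s) _)
  have h2 := F.mul (hR (coeff J P)) h1
  refine F.mono ?_ h2
  rw [zero_add]
  exact hP J hJ

end Fil

/-- A submultiplicative seminorm with `ν 1 ≤ 1`. -/
structure Nrm (A : Type) [CommRing A] where
  ν : A → ℝ
  nonneg : ∀ a, 0 ≤ ν a
  zero : ν 0 = 0
  one : ν 1 ≤ 1
  neg : ∀ a, ν (-a) = ν a
  add : ∀ a b, ν (a + b) ≤ ν a + ν b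
  mul : ∀ a b, ν (a * b) ≤ ν a * ν b

namespace Nrm
variable {A : Type} [CommRing A] (N : Nrm A)

theorem sum_le {ι : Type} (s : Finset ι) (f : ι → A) :
    N.ν (∑ i ∈ s, f i) ≤ ∑ i ∈ s, N.ν (f i) := by
  classical
  induction s using Finset.induction_on with
  | empty => simp [N.zero]
  | insert a s ha ih =>
    rw [Finset.sum_insert ha, Finset.sum_insert ha]
    exact (N.add _ _).trans (by linarith)

theorem prod_le {ι : Type} (s : Finset ι) (f : ι → A) :
    N.ν (∏ i ∈ s, f i) ≤ ∏ i ∈ s, N.ν (f i) := by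
  classical
  induction s using Finset.induction_on with
  | empty => simpa using N.one
  | insert a s ha ih =>
    rw [Finset.prod_insert ha, Finset.prod_insert ha]
    exact (N.mul _ _).trans (mul_le_mul_of_nonneg_left ih (N.nonneg _))

theorem pow_le (a : A) (k : ℕ) : N.ν (a ^ k) ≤ N.ν a ^ k := by
  induction k with
  | zero => simpa using N.one
  | succ k ih =>
    rw [pow_succ, pow_succ]
    exact (N.mul _ _).trans (mul_le_mul_of_nonneg_right ih (N.nonneg _))

/-- Absolute value on the integers. -/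
noncomputable def int : Nrm ℤ where
  ν a := |(a : ℝ)|
  nonneg _ := abs_nonneg _
  zero := by simp
  one := by simp
  neg a := by simp
  add a b := by push_cast; exact abs_add_le _ _
  mul a b := by push_cast; rw [abs_mul]

/-- Absolute value on the reals. -/
noncomputable def real : Nrm ℝ where
  ν a := |a|
  nonneg _ := abs_nonneg _
  zero := by simp
  one := by simp
  neg a := by simp
  add a b := abs_add_le _ _
  mul a b := by rw [abs_mul]

/-- The scaling factor of a monomial. -/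
noncomputable def sc {σ : Type} (ρ : σ → ℝ) (J : σ →₀ ℕ) : ℝ := J.prod fun s k => ρ s ^ k

theorem sc_nonneg {σ : Type} {ρ : σ → ℝ} (hρ : ∀ s, 0 ≤ ρ s) (J : σ →₀ ℕ) : 0 ≤ sc ρ J :=
  Finset.prod_nonneg fun s _ => pow_nonneg (hρ s) _

theorem sc_add {σ : Type} (ρ : σ → ℝ) (I J : σ →₀ ℕ) : sc ρ (I + J) = sc ρ I * sc ρ J := by
  classical
  unfold sc
  rw [Finsupp.prod_add_index']
  · simp
  · intro a b c; rw [pow_add]

@[simp] theorem sc_zero {σ : Type} (ρ : σ → ℝ) : sc ρ 0 = 1 := by simp [sc]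

@[simp] theorem sc_one {σ : Type} (J : σ →₀ ℕ) : sc (fun _ => (1 : ℝ)) J = 1 := by simp [sc]

@[simp] theorem sc_single {σ : Type} (ρ : σ → ℝ) (s : σ) (k : ℕ) :
    sc ρ (Finsupp.single s k) = ρ s ^ k := by
  unfold sc
  rw [Finsupp.prod_single_index]; simp

theorem sc_eq_prod {σ : Type} [Fintype σ] (ρ : σ → ℝ) (J : σ →₀ ℕ) :
    sc ρ J = ∏ s, ρ s ^ J s := by
  unfold sc
  rw [Finsupp.prod_fintype]; simp

/-- Weighted l1 norm. -/
noncomputable def pn {σ : Type} (ρ : σ → ℝ) (P : MvPolynomial σ A) : ℝ :=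
  ∑ J ∈ P.support, N.ν (coeff J P) * sc ρ J

theorem pn_eq {σ : Type} (ρ : σ → ℝ) (P : MvPolynomial σ A) (T : Finset (σ →₀ ℕ))
    (hT : P.support ⊆ T) : N.pn ρ P = ∑ J ∈ T, N.ν (coeff J P) * sc ρ J := by
  refine Finset.sum_subset hT fun J _ hJ => ?_
  rw [notMem_support_iff.1 hJ, N.zero, zero_mul]

theorem pn_monomial {σ : Type} (ρ : σ → ℝ) (J : σ →₀ ℕ) (a : A) :
    N.pn ρ (monomial J a) = N.ν a * sc ρ J := by
  classical
  rw [N.pn_eq ρ _ {J} support_monomial_subset]
  simp

theorem pn_add {σ : Type} {ρ : σ → ℝ} (hρ : ∀ s, 0 ≤ ρ s) (P Q : MvPolynomial σ A) :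
    N.pn ρ (P + Q) ≤ N.pn ρ P + N.pn ρ Q := by
  classical
  rw [N.pn_eq ρ (P + Q) _ support_add, N.pn_eq ρ P _ Finset.subset_union_left,
    N.pn_eq ρ Q _ Finset.subset_union_right, ← Finset.sum_add_distrib]
  refine Finset.sum_le_sum fun J _ => ?_
  rw [coeff_add, ← add_mul]
  exact mul_le_mul_of_nonneg_right (N.add _ _) (sc_nonneg hρ J)

theorem pn_sum {σ ι : Type} {ρ : σ → ℝ} (hρ : ∀ s, 0 ≤ ρ s) (s : Finset ι)
    (f : ι → MvPolynomial σ A) : N.pn ρ (∑ i ∈ s, f i) ≤ ∑ i ∈ s, N.pn ρ (f i) := by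
  classical
  induction s using Finset.induction_on with
  | empty => simp [pn]
  | insert a s ha ih =>
    rw [Finset.sum_insert ha, Finset.sum_insert ha]
    exact (N.pn_add hρ _ _).trans (by linarith)

/-- The weighted l1 norm on a polynomial ring. -/
noncomputable def poly {σ : Type} (ρ : σ → ℝ) (hρ : ∀ s, 0 ≤ ρ s) : Nrm (MvPolynomial σ A) where
  ν := N.pn ρ
  nonneg P := Finset.sum_nonneg fun J _ => mul_nonneg (N.nonneg _) (sc_nonneg hρ J)
  zero := by simp [pn]
  one := by
    have : (1 : MvPolynomial σ A) = monomial 0 1 := rfl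
    rw [this, pn_monomial]; simpa using N.one
  neg P := by simp [pn, N.neg]
  add := N.pn_add hρ
  mul P Q := by
    classical
    conv_lhs => rw [P.as_sum, Q.as_sum, Finset.sum_mul_sum]
    refine (N.pn_sum hρ _ _).trans ?_
    rw [pn, pn, Finset.sum_mul_sum]
    refine Finset.sum_le_sum fun I _ => ?_
    refine (N.pn_sum hρ _ _).trans ?_
    refine Finset.sum_le_sum fun J _ => ?_
    rw [monomial_mul, pn_monomial, sc_add]
    have := mul_le_mul_of_nonneg_right (N.mul (coeff I P) (coeff J Q))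
      (mul_nonneg (sc_nonneg hρ I) (sc_nonneg hρ J))
    linarith

theorem poly_ν {σ : Type} (ρ : σ → ℝ) (hρ : ∀ s, 0 ≤ ρ s) (P : MvPolynomial σ A) :
    (N.poly ρ hρ).ν P = ∑ J ∈ P.support, N.ν (coeff J P) * sc ρ J := rfl

theorem poly_monomial {σ : Type} (ρ : σ → ℝ) (hρ : ∀ s, 0 ≤ ρ s) (J : σ →₀ ℕ) (a : A) :
    (N.poly ρ hρ).ν (monomial J a) = N.ν a * sc ρ J := N.pn_monomial ρ J a

theorem poly_C {σ : Type} (ρ : σ → ℝ) (hρ : ∀ s, 0 ≤ ρ s) (a : A) :
    (N.poly ρ hρ).ν (C a) = N.ν a := by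
  rw [C_apply, poly_monomial]; simp

theorem poly_X {σ : Type} (ρ : σ → ℝ) (hρ : ∀ s, 0 ≤ ρ s) (s : σ) :
    (N.poly ρ hρ).ν (X s) ≤ ρ s := by
  rw [X, poly_monomial, sc_single, pow_one]
  simpa using mul_le_mul_of_nonneg_right N.one (hρ s)

theorem coeff_le {σ : Type} (ρ : σ → ℝ) (hρ : ∀ s, 0 ≤ ρ s) (P : MvPolynomial σ A)
    (J : σ →₀ ℕ) : N.ν (coeff J P) * sc ρ J ≤ (N.poly ρ hρ).ν P := by
  by_cases hJ : J ∈ P.support
  · rw [poly_ν]
    exact Finset.single_le_sum (f := fun J => N.ν (coeff J P) * sc ρ J)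
      (fun J _ => mul_nonneg (N.nonneg _) (sc_nonneg hρ J)) hJ
  · rw [notMem_support_iff.1 hJ, N.zero, zero_mul]; exact (N.poly ρ hρ).nonneg _

/-- Norm of a substitution. -/
theorem aeval_le {σ R : Type} [CommRing R] [Algebra R A] (N' : Nrm R)
    (hR : ∀ r : R, N.ν (algebraMap R A r) ≤ N'.ν r) (φ : σ → A) (b : σ → ℝ)
    (hφ : ∀ s, N.ν (φ s) ≤ b s) (P : MvPolynomial σ R) :
    N.ν (aeval φ P) ≤ ∑ J ∈ P.support, N'.ν (coeff J P) * sc b J := by
  rw [aeval_def, eval₂_eq]
  refine (N.sum_le _ _).trans (Finset.sum_le_sum fun J _ => ?_)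
  refine (N.mul _ _).trans (mul_le_mul (hR _) ?_ (N.nonneg _) (N'.nonneg _))
  refine (N.prod_le _ _).trans (Finset.prod_le_prod (fun s _ => N.nonneg _) fun s _ => ?_)
  exact (N.pow_le _ _).trans (pow_le_pow_left₀ (N.nonneg _) (hφ s) _)

end Nrm

theorem l1_eq {σ : Type} (P : MvPolynomial σ ℤ) :
    l1 P = (Nrm.int.poly (fun _ : σ => (1 : ℝ)) fun _ => zero_le_one).ν P := by
  rw [Nrm.poly_ν]; simp [l1, Nrm.int]

theorem l1_nonneg {σ : Type} (P : MvPolynomial σ ℤ) : 0 ≤ l1 P :=
  Finset.sum_nonneg fun _ _ => abs_nonneg _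

theorem abs_coeff_le_l1 {σ : Type} (P : MvPolynomial σ ℤ) (J : σ →₀ ℕ) :
    |((coeff J P : ℤ) : ℝ)| ≤ l1 P := by
  have := Nrm.int.coeff_le (fun _ : σ => (1 : ℝ)) (fun _ => zero_le_one) P J
  rw [l1_eq]; simpa [Nrm.int] using this

theorem one_le_l1 {σ : Type} {P : MvPolynomial σ ℤ} (hP : P ≠ 0) : 1 ≤ l1 P := by
  obtain ⟨J, hJ⟩ := ne_zero_iff.1 hP
  refine le_trans ?_ (abs_coeff_le_l1 P J)
  have : (1 : ℤ) ≤ |coeff J P| := Int.one_le_abs hJ
  exact_mod_cast this

section shift
variable {σ R : Type} [CommRing R]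

@[simp] theorem shift_X (y : σ → R) (s : σ) : shift y (X s) = C (y s) + X s := by simp [shift]

@[simp] theorem shift_C (y : σ → R) (a : R) : shift y (C a) = C a := by simp [shift]

theorem map_shift {R' : Type} [CommRing R'] (f : R →+* R') (y : σ → R) (P : MvPolynomial σ R) :
    map f (shift y P) = shift (fun s => f (y s)) (map f P) := by
  induction P using MvPolynomial.induction_on with
  | C a => simp
  | add p q hp hq => simp [hp, hq]
  | mul_X p s hp => simp [hp]

theorem shift_shift (y z : σ → R) (P : MvPolynomial σ R) :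
    shift y (shift z P) = shift (fun s => z s + y s) P := by
  induction P using MvPolynomial.induction_on with
  | C a => simp
  | add p q hp hq => simp [hp, hq]
  | mul_X p s hp => simp [hp, add_assoc]

theorem shift_zero (P : MvPolynomial σ R) : shift (fun _ => 0) P = P := by
  induction P using MvPolynomial.induction_on with
  | C a => simp
  | add p q hp hq => simp [hp, hq]
  | mul_X p s hp => simp [hp]

theorem shift_ne_zero (y : σ → R) {P : MvPolynomial σ R} (hP : P ≠ 0) : shift y P ≠ 0 := by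
  intro h
  apply hP
  have := shift_shift (fun s => -y s) y P
  rw [h] at this
  simpa [shift_zero] using this.symm

end shift

end Pool.Agent.MP_077ac3_nt.H18
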