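import Pool.Agent.MP_077ac3_nt.H18.GRoth
import Pool.Agent.MP_077ac3_nt.H18.Core
import Pool.Agent.MP_077ac3_nt.H56.AuxPoly
import Pool.Agent.MP_077ac3_nt.H93.Vanish
import Pool.Agent.MP_077ac3_nt.H68.Height
import Pool.Agent.MP_077ac3_nt.H38.Geom
import Pool.Agent.MP_077ac3_nt.H73.Subspace
import Pool.Agent.MP_077ac3_nt.H88.Seq
import Pool.Agent.MP_077ac3_nt.H15.Roth

set_option autoImplicit false

/-! Assembly of the p-adic Subspace Theorem. -/

namespace Pool.Agent.MP_077ac3_nt.H18

theorem subspace_of_roth (hR : RothStmt) : SubspaceStmt :=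
  H73.subspace_of (core_of (groth_of hR) H56.aux H93.vanish H68.height) H38.geom

theorem seq_of_roth (hR : RothStmt) : SeqStmt := H88.seq_of (subspace_of_roth hR)

/-- The parametric p-adic Subspace Theorem. -/
theorem subspace : SubspaceStmt := subspace_of_roth H15.roth

/-- The Subspace Theorem in product form along a sequence. -/
theorem seq : SeqStmt := seq_of_roth H15.roth

end Pool.Agent.MP_077ac3_nt.H18
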